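import Pool.Agent.U722.FF.Stm

/-!
Package FGV of project FF: vertex groups are finitely generated if the group and the edge groups are.
-/

set_option autoImplicit false
set_option linter.unusedSectionVars false

namespace Pool.Agent.U99.FFP

open U722.FF TH57.FF Matrix MulAction

section

variable {G X : Type} [Group G] [MulAction G X]

/-- the complement of an invariant subset -/
def cpl (P : SubMulAction G X) : SubMulAction G X where
  carrier := {x | x ∉ P}
  smul_mem' := by
    intro g x hx h
    apply hx
    have := P.smul_mem g⁻¹ h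
    rwa [inv_smul_smul] at this

lemma mem_cpl (P : SubMulAction G X) (x : X) : x ∈ cpl P ↔ x ∉ P := Iff.rfl

/-- the orbit of a point -/
def orb (v : X) : SubMulAction G X where
  carrier := orbit G v
  smul_mem' := by
    rintro g x ⟨h, rfl⟩
    exact ⟨g * h, mul_smul g h v⟩

open Classical in
/-- the projection to an invariant subset -/
noncomputable def pr (P : SubMulAction G X) : PM G X →ₗ[MonoidAlgebra ℤ G] PM G P :=
  PMlift (fun x => if h : x ∈ P then pt G (⟨x, h⟩ : P) else 0) (by
    intro g x
    by_cases h : x ∈ P
    · have h' : g • x ∈ P := P.smul_mem g h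
      rw [dif_pos h', dif_pos h, of_smul_pt]
      rfl
    · have h' : g • x ∉ P := (cpl P).smul_mem g h
      rw [dif_neg h', dif_neg h, smul_zero])

/-- the inclusion of an invariant subset -/
noncomputable def inc (P : SubMulAction G X) : PM G P →ₗ[MonoidAlgebra ℤ G] PM G X :=
  PMlift (fun p : P => pt G (p : X)) (by
    intro g p
    rw [of_smul_pt]
    rfl)

lemma pr_pt_mem (P : SubMulAction G X) (x : X) (h : x ∈ P) :
    pr P (pt G x) = pt G (⟨x, h⟩ : P) := by
  unfold pr
  rw [PMlift_pt, dif_pos h]

lemma pr_pt_not (P : SubMulAction G X) (x : X) (h : x ∉ P) : pr P (pt G x) = 0 := by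
  unfold pr
  rw [PMlift_pt, dif_neg h]

lemma inc_pt (P : SubMulAction G X) (p : P) : inc P (pt G p) = pt G (p : X) := by
  unfold inc
  rw [PMlift_pt]

lemma pr_inc (P : SubMulAction G X) (m : PM G P) : pr P (inc P m) = m := by
  induction m using PM_induction with
  | h0 => simp
  | h1 x => rw [inc_pt, pr_pt_mem P _ x.2]
  | h2 a b ha hb => rw [map_add, map_add, ha, hb]
  | h3 a ha => rw [map_neg, map_neg, ha]

lemma pr_inc_cpl (P : SubMulAction G X) (m : PM G (cpl P)) : pr P (inc (cpl P) m) = 0 := by
  induction m using PM_induction with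
  | h0 => simp
  | h1 x => rw [inc_pt, pr_pt_not P _ x.2]
  | h2 a b ha hb => rw [map_add, map_add, ha, hb, add_zero]
  | h3 a ha => rw [map_neg, map_neg, ha, neg_zero]

lemma decomp (P : SubMulAction G X) (m : PM G X) :
    inc P (pr P m) + inc (cpl P) (pr (cpl P) m) = m := by
  induction m using PM_induction with
  | h0 => simp
  | h1 x =>
    by_cases h : x ∈ P
    · rw [pr_pt_mem P x h, pr_pt_not (cpl P) x (fun h' => h' h), inc_pt, map_zero, add_zero]
    · rw [pr_pt_not P x h, pr_pt_mem (cpl P) x h, inc_pt, map_zero, zero_add]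
  | h2 a b ha hb =>
    rw [map_add, map_add, map_add, map_add, add_add_add_comm, ha, hb]
  | h3 a ha =>
    rw [map_neg, map_neg, map_neg, map_neg, ← neg_add, ha]

lemma inc_injective (P : SubMulAction G X) : Function.Injective (inc P) :=
  Function.LeftInverse.injective (pr_inc P)

lemma pr_surjective (P : SubMulAction G X) : Function.Surjective (pr P) :=
  Function.RightInverse.surjective (pr_inc P)

lemma ker_pr (P : SubMulAction G X) : LinearMap.ker (pr P) = LinearMap.range (inc (cpl P)) := by
  ext m
  rw [LinearMap.mem_ker, LinearMap.mem_range]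
  constructor
  · intro h
    refine ⟨pr (cpl P) m, ?_⟩
    have := decomp P m
    rwa [h, map_zero, zero_add] at this
  · rintro ⟨a, rfl⟩
    exact pr_inc_cpl P a

lemma stab_eq (P : SubMulAction G X) (x : P) : stabilizer G x = stabilizer G (x : X) := by
  ext g
  rw [mem_stabilizer_iff, mem_stabilizer_iff]
  constructor
  · intro h
    have := congrArg (fun y : P => (y : X)) h
    exact this
  · intro h
    exact Subtype.ext h

/-- if both parts are finitely presented then so is the whole -/
lemma fp_of_parts (P : SubMulAction G X)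
    (h1 : Module.FinitePresentation (MonoidAlgebra ℤ G) (PM G P))
    (h2 : Module.FinitePresentation (MonoidAlgebra ℤ G) (PM G (cpl P))) :
    Module.FinitePresentation (MonoidAlgebra ℤ G) (PM G X) := by
  have e : PM G (cpl P) ≃ₗ[MonoidAlgebra ℤ G] LinearMap.ker (pr P) :=
    (LinearEquiv.ofInjective (inc (cpl P)) (inc_injective _)).trans
      (LinearEquiv.ofEq _ _ (ker_pr P).symm)
  have h3 : Module.FinitePresentation (MonoidAlgebra ℤ G) (LinearMap.ker (pr P)) :=
    Module.FinitePresentation.of_equiv e
  exact Module.finitePresentation_of_ker (pr P) (pr_surjective P)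

end

lemma fp_of_finOrb (h1 : S_FP1) (G : Type) [Group G] :
    ∀ (n : ℕ) (X : Type) [MulAction G X] (S : Finset X), S.card ≤ n →
      (∀ y : X, ∃ g : G, ∃ x ∈ S, g • x = y) → (∀ x : X, Group.FG ↥(stabilizer G x)) →
      Module.FinitePresentation (MonoidAlgebra ℤ G) (PM G X) := by
  classical
  intro n
  induction n with
  | zero =>
    intro X _ S hS hX _
    have hS0 : S = ∅ := Finset.card_eq_zero.mp (Nat.le_zero.mp hS)
    have hE : IsEmpty X := by
      constructor
      intro y
      obtain ⟨g, x, hx, -⟩ := hX y
      rw [hS0] at hx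
      exact absurd hx (Finset.notMem_empty _)
    have : Subsingleton (PM G X) := inferInstanceAs (Subsingleton (X →₀ ℤ))
    infer_instance
  | succ n ih =>
    intro X _ S hS hX hst
    by_cases hne : S.Nonempty
    swap
    · rw [Finset.not_nonempty_iff_eq_empty] at hne
      exact ih X S (by rw [hne]; simp) hX hst
    obtain ⟨x, hx⟩ := hne
    have hxo : x ∈ (orb x : SubMulAction G X) := mem_orbit_self x
    apply fp_of_parts (orb x)
    · refine h1 G (orb x : SubMulAction G X) ⟨x, hxo⟩ ?_ ?_
      · rintro ⟨y, hy⟩
        obtain ⟨g, hg⟩ := mem_orbit_iff.1 hy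
        exact ⟨g, Subtype.ext hg⟩
      · rw [stab_eq]
        exact hst x
    · let S' : Finset (cpl (orb x : SubMulAction G X)) :=
        S.subtype (fun y => y ∈ cpl (orb x : SubMulAction G X))
      refine ih _ S' ?_ ?_ ?_
      · have h3 : S'.card ≤ (S.erase x).card := by
          rw [Finset.card_subtype]
          apply Finset.card_le_card
          intro y hy
          rw [Finset.mem_filter] at hy
          rw [Finset.mem_erase]
          refine ⟨?_, hy.1⟩
          rintro rfl
          exact hy.2 hxo
        rw [Finset.card_erase_of_mem hx] at h3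
        omega
      · rintro ⟨y, hy⟩
        obtain ⟨g, z, hz, hgz⟩ := hX y
        have hz' : z ∈ cpl (orb x : SubMulAction G X) := by
          intro hzo
          apply hy
          rw [← hgz]
          exact (orb x : SubMulAction G X).smul_mem g hzo
        exact ⟨g, ⟨z, hz'⟩, Finset.mem_subtype.mpr hz, Subtype.ext hgz⟩
      · intro y
        rw [stab_eq]
        exact hst y

theorem t_FGV (h1 : S_FP1) (h2 : S_FP2) : S_FGV := by
  intro G E V _ _ _ hG hE hex hst v
  obtain ⟨S, hS⟩ := hE
  have hEfp : Module.FinitePresentation (MonoidAlgebra ℤ G) (PM G E) :=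
    fp_of_finOrb h1 G S.card E S le_rfl hS hst
  have hpt : Module.FinitePresentation (MonoidAlgebra ℤ G) (PM G PUnit.{1}) := by
    refine h1 G PUnit.{1} PUnit.unit (fun y => ⟨1, rfl⟩) ?_
    have htop : stabilizer G PUnit.unit.{1} = ⊤ := by
      ext g
      simp [mem_stabilizer_iff]
    rw [htop]
    exact (Group.fg_iff_subgroup_fg ⊤).mpr (Group.fg_def.mp hG)
  obtain ⟨f, g, hf, hg, hfg⟩ := hex
  have hker : LinearMap.ker g = LinearMap.range f := by
    ext b
    rw [LinearMap.mem_ker]
    exact hfg b
  have hVfp : Module.FinitePresentation (MonoidAlgebra ℤ G) (PM G V) := by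
    have e : PM G E ≃ₗ[MonoidAlgebra ℤ G] LinearMap.ker g :=
      (LinearEquiv.ofInjective f hf).trans (LinearEquiv.ofEq _ _ hker.symm)
    have h3 : Module.FinitePresentation (MonoidAlgebra ℤ G) (LinearMap.ker g) :=
      Module.FinitePresentation.of_equiv e
    exact Module.finitePresentation_of_ker g hg
  have hvo : v ∈ (orb v : SubMulAction G V) := mem_orbit_self v
  have hfin : Module.Finite (MonoidAlgebra ℤ G) (PM G (cpl (orb v : SubMulAction G V))) :=
    Module.Finite.of_surjective _ (pr_surjective (cpl (orb v : SubMulAction G V)))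
  have hkfg : (LinearMap.ker (pr (orb v : SubMulAction G V))).FG := by
    rw [ker_pr]
    exact Submodule.fg_top _ |>.mp (by
      have := Module.Finite.range (inc (cpl (orb v : SubMulAction G V)))
      exact this.fg_top)
  have hofp : Module.FinitePresentation (MonoidAlgebra ℤ G) (PM G (orb v : SubMulAction G V)) :=
    Module.finitePresentation_of_surjective (pr (orb v : SubMulAction G V)) (pr_surjective _) hkfg
  have := h2 G (orb v : SubMulAction G V) ⟨v, hvo⟩ (by
    rintro ⟨y, hy⟩
    obtain ⟨g, hg⟩ := mem_orbit_iff.1 hy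
    exact ⟨g, Subtype.ext hg⟩) hofp
  rw [stab_eq] at this
  exact this

end Pool.Agent.U99.FFP
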